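import Pool.Agent.Y604.LS.Main

/-!
Long/short edge realizability restricted to complete bipartite graphs is complete for the
existential theory of the reals.
-/

open Pool.Agent.NPC Pool.Agent.NPC.ER

theorem Pool.Agent.Results.MP_24b35c_lc.CompleteBipartite.result :
    ERComplete (lang Pool.Agent.Y604.LS.LongShortBipartite) :=
  Pool.Agent.NPC.Y604LS.complete
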